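import Pool.Agent.Lib.MP_39c2b7_co.Interfaces

/-! Adjacent vertices of degrees 4, 4 and 4, 5 do not exist (modules NO44, NO45). -/

namespace StrongArb.H39

instance decCyc (n i j : ℕ) : Decidable (CycAdj n i j) := by
  unfold CycAdj; infer_instance

theorem consIn_iff (l : List ℕ) (a b : ℕ) :
    ConsIn l a b ↔ ∃ i : Fin l.length, ∃ j : Fin l.length, l[i] = a ∧ l[j] = b ∧
      CycAdj l.length i j := by
  constructor
  · rintro ⟨i, j, hi, hj, h⟩
    exact ⟨⟨i, hi⟩, ⟨j, hj⟩, h⟩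
  · rintro ⟨i, j, h⟩
    exact ⟨i, j, i.2, j.2, h⟩

instance decCons (l : List ℕ) (a b : ℕ) : Decidable (ConsIn l a b) :=
  decidable_of_iff _ (consIn_iff l a b).symm

theorem kAdj_iff (P : Pat) (a b : ℕ) : P.K.Adj a b ↔ a ≠ b ∧ ∃ v : Fin P.nI,
    ((a = v ∧ b ∈ P.link v) ∨ (b = v ∧ a ∈ P.link v) ∨ ConsIn (P.link v) a b ∨
      ConsIn (P.link v) b a) := by
  constructor
  · rintro ⟨h, v, hv, h'⟩
    exact ⟨h, ⟨v, hv⟩, h'⟩
  · rintro ⟨h, v, h'⟩
    exact ⟨h, v, v.2, h'⟩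

instance decK (P : Pat) (a b : ℕ) : Decidable (P.K.Adj a b) :=
  decidable_of_iff _ (kAdj_iff P a b).symm

theorem consIn_mem {l : List ℕ} {a b : ℕ} (h : ConsIn l a b) : a ∈ l ∧ b ∈ l := by
  obtain ⟨i, j, hi, hj, rfl, rfl, -⟩ := h
  exact ⟨List.getElem_mem hi, List.getElem_mem hj⟩

theorem kAdj_lt {P : Pat} (h : P.WF) {a b : ℕ} (hab : P.K.Adj a b) : a < P.N ∧ b < P.N := by
  obtain ⟨-, v, hv, h1 | h1 | h1 | h1⟩ := hab
  · exact ⟨h1.1 ▸ lt_of_lt_of_le hv h.le, h.lt v hv b h1.2⟩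
  · exact ⟨h.lt v hv a h1.2, h1.1 ▸ lt_of_lt_of_le hv h.le⟩
  · exact ⟨h.lt v hv a (consIn_mem h1).1, h.lt v hv b (consIn_mem h1).2⟩
  · exact ⟨h.lt v hv a (consIn_mem h1).2, h.lt v hv b (consIn_mem h1).1⟩

/-- the conclusion of `nonadj` in decidable form -/
def Cond (P : Pat) (r r' : ℕ) : Prop :=
  P.block r = P.block r' ∨
    (∃ x : Fin P.N, ∃ y : Fin P.N, P.K.Adj x y ∧ P.block x = P.block r ∧ P.block y = P.block r') ∨
    (∃ x : Fin P.N, P.nI ≤ x ∧ (x : ℕ) ≠ r ∧ P.block x = P.block r)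

instance decCond (P : Pat) (r r' : ℕ) : Decidable (Cond P r r') := by
  unfold Cond; infer_instance

theorem cond_of {P : Pat} (h : P.WF) {r r' : ℕ}
    (hc : P.block r = P.block r' ∨ P.Q.Adj (P.block r) (P.block r') ∨
      (P.Merged r ∧ P.Merged r')) : Cond P r r' := by
  rcases hc with hc | ⟨-, x, y, hxy, hx, hy⟩ | ⟨⟨x, hx, hxr, hb⟩, -⟩
  · exact Or.inl hc
  · exact Or.inr (Or.inl ⟨⟨x, (kAdj_lt h hxy).1⟩, ⟨y, (kAdj_lt h hxy).2⟩, hxy, hx, hy⟩)
  · exact Or.inr (Or.inr ⟨⟨x, hx.2⟩, hx.1, hxr, hb⟩)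

section
variable {V : Type} {G : SimpleGraph V}

/-- a link of length four starting with two given consecutive elements -/
theorem four {u a b x y : V} (h : IsLink G u [a, b, x, y]) :
    G.Adj a b ∧ G.Adj b x ∧ G.Adj x y ∧ G.Adj y a ∧ ¬ G.Adj a x ∧ ¬ G.Adj b y ∧ a ≠ b ∧ a ≠ x ∧
      a ≠ y ∧ b ≠ x ∧ b ≠ y ∧ x ≠ y ∧ G.Adj u a ∧ G.Adj u b ∧ G.Adj u x ∧ G.Adj u y := by
  have hadj := h.adj
  have hn := h.nodup
  simp only [List.nodup_cons, List.mem_cons, List.not_mem_nil, or_false, not_or,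
    not_false_eq_true, List.nodup_nil, and_true] at hn
  have h01 := (hadj 0 1 (by simp) (by simp)).2 (by simp [CycAdj])
  have h12 := (hadj 1 2 (by simp) (by simp)).2 (by simp [CycAdj])
  have h23 := (hadj 2 3 (by simp) (by simp)).2 (by simp [CycAdj])
  have h30 := (hadj 3 0 (by simp) (by simp)).2 (by simp [CycAdj])
  have h02 := mt (hadj 0 2 (by simp) (by simp)).1 (by simp [CycAdj])
  have h13 := mt (hadj 1 3 (by simp) (by simp)).1 (by simp [CycAdj])
  simp only [List.getElem_cons_zero, List.getElem_cons_succ] at h01 h12 h23 h30 h02 h13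
  have m := h.mem
  refine ⟨h01, h12, h23, h30, h02, h13, hn.1.1, hn.1.2.1, hn.1.2.2, hn.2.1.1, hn.2.1.2, hn.2.2,
    (m a).1 (by simp), (m b).1 (by simp), (m x).1 (by simp), (m y).1 (by simp)⟩

theorem five {u a b x y z : V} (h : IsLink G u [a, b, x, y, z]) :
    G.Adj a b ∧ G.Adj b x ∧ G.Adj x y ∧ G.Adj y z ∧ G.Adj z a ∧ ¬ G.Adj a x ∧ ¬ G.Adj a y ∧
      G.Adj u a ∧ G.Adj u b ∧ G.Adj u x ∧ G.Adj u y ∧ G.Adj u z := by
  have hadj := h.adj
  have h01 := (hadj 0 1 (by simp) (by simp)).2 (by simp [CycAdj])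
  have h12 := (hadj 1 2 (by simp) (by simp)).2 (by simp [CycAdj])
  have h23 := (hadj 2 3 (by simp) (by simp)).2 (by simp [CycAdj])
  have h34 := (hadj 3 4 (by simp) (by simp)).2 (by simp [CycAdj])
  have h40 := (hadj 4 0 (by simp) (by simp)).2 (by simp [CycAdj])
  have h02 := mt (hadj 0 2 (by simp) (by simp)).1 (by simp [CycAdj])
  have h03 := mt (hadj 0 3 (by simp) (by simp)).1 (by simp [CycAdj])
  simp only [List.getElem_cons_zero, List.getElem_cons_succ] at h01 h12 h23 h34 h40 h02 h03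
  have m := h.mem
  refine ⟨h01, h12, h23, h34, h40, h02, h03,
    (m a).1 (by simp), (m b).1 (by simp), (m x).1 (by simp), (m y).1 (by simp),
    (m z).1 (by simp)⟩

/-- the common neighbours of the ends of an edge whose first end has degree four -/
theorem start (hL : LinkApi) (hG : MinCE G) {u v : V} (huv : G.Adj u v) (hu : dg G u = 4) :
    ∃ a b x, IsLink G u [v, a, x, b] ∧ ∀ w, (G.Adj w u ∧ G.Adj w v) ↔ (w = a ∨ w = b) := by
  obtain ⟨l, hl⟩ := hG.link u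
  obtain ⟨a, b, hab, hnab, hc⟩ := hL.common V G u v l hl huv
  have ha := (hc a).2 (Or.inl rfl)
  have hb := (hc b).2 (Or.inr rfl)
  obtain ⟨l', hl', hlen⟩ := hL.first V G u v a l hl huv ha.1.symm ha.2.symm
  have h4 := hL.dg V G u l hl
  rw [hu] at h4
  obtain ⟨x, b', rfl⟩ : ∃ x b', l' = [x, b'] := by
    match l', hlen with
    | [x, b'], _ => exact ⟨x, b', rfl⟩
    | [], h => simp at h; omega
    | [_], h => simp at h; omega
    | _ :: _ :: _ :: _, h => simp at h; omega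
  have h := four hl'
  have hb' : b' = a ∨ b' = b := (hc b').1 ⟨h.2.2.2.2.2.2.2.2.2.2.2.2.2.2.2.symm, h.2.2.2.1⟩
  have hne : b' ≠ a := h.2.2.2.2.2.2.2.2.2.2.1.symm
  have := hb'.resolve_left hne
  subst this
  exact ⟨a, b', x, hl', hc⟩

theorem list_of_length4 {l : List V} (h : l.length + 2 = 4) : ∃ x y, l = [x, y] := by
  match l, h with
  | [x, y], _ => exact ⟨x, y, rfl⟩

theorem list_of_length5 {l : List V} (h : l.length + 2 = 5) : ∃ x y z, l = [x, y, z] := by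
  match l, h with
  | [x, y, z], _ => exact ⟨x, y, z, rfl⟩

end

/-- NO44 -/
theorem no44 (hS : SoundStatement) (hL : LinkApi) (hW : WFStatement) (hD : P44.Dominated) :
    No44Statement := by
  intro V G hG u v huv hu hv
  have hwf : P44.WF := hW P44 [[1, 2], [0, 3], [4], [5]] (by decide +kernel)
  obtain ⟨a, b, x, hlu, hc⟩ := start hL hG huv hu
  have fu := four hlu
  have ha := (hc a).2 (Or.inl rfl)
  have hb := (hc b).2 (Or.inr rfl)
  obtain ⟨m, hm⟩ := hG.link v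
  obtain ⟨m', hm', hlen⟩ := hL.first V G v u b m hm huv.symm hb.2.symm hb.1.symm
  have h4 := hL.dg V G v m hm
  rw [hv] at h4
  obtain ⟨y, a', rfl⟩ := list_of_length4 (hlen.trans h4.symm)
  have fv := four hm'
  have ha' : a' = a := by
    rcases (hc a').1 ⟨fv.2.2.2.1, fv.2.2.2.2.2.2.2.2.2.2.2.2.2.2.2.symm⟩ with h | h
    · exact h
    · exact absurd h.symm fv.2.2.2.2.2.2.2.2.2.2.1
  subst ha'
  -- the placement
  set ψ : ℕ → V := fun n => [u, v, y, a', x, b].getD n u with hψ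
  refine hS V G hG P44 ψ hwf hD ⟨?_, ?_, ?_, ?_⟩
  · intro w hw
    have : w = 0 ∨ w = 1 := by
      have : w < 2 := hw
      omega
    rcases this with rfl | rfl
    · exact hlu
    · have := hL.rotate V G v _ 1 hm'
      exact this
  · have hx2 : x ≠ y := by
      rintro rfl
      exact fu.2.2.2.2.1 fv.2.2.2.2.2.2.2.2.2.2.2.2.2.2.1
    have huv' := huv.ne
    have hnu : ∀ w, G.Adj u w → w ≠ u := fun w h => h.ne'
    have hnv : ∀ w, G.Adj v w → w ≠ v := fun w h => h.ne'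
    have key : [u, v, y, a', x, b].Nodup := by
      simp only [List.nodup_cons, List.mem_cons, List.not_mem_nil, or_false, not_or,
        not_false_eq_true, List.nodup_nil, and_true]
      obtain ⟨u1, u2, u3, u4, u5, u6, u7, u8, u9, u10, u11, u12, u13, u14, u15, u16⟩ := fu
      obtain ⟨v1, v2, v3, v4, v5, v6, v7, v8, v9, v10, v11, v12, v13, v14, v15, v16⟩ := fv
      exact ⟨⟨huv', v8, u14.ne, u15.ne, u16.ne⟩, ⟨v15.ne, u7, u8, u9⟩,
        ⟨v12, hx2.symm, v10.symm⟩, ⟨u10, u11⟩, u12⟩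
    intro i j hi hj hij
    have hi' : i < [u, v, y, a', x, b].length := hi
    have hj' : j < [u, v, y, a', x, b].length := hj
    simp only [hψ, List.getD_eq_getElem _ _ hi', List.getD_eq_getElem _ _ hj'] at hij
    exact (key.getElem_inj_iff).1 hij
  · intro r r' hr hr' hne hK hcond
    have hcond' := cond_of hwf hcond
    have hdec : ∀ r r' : Fin 6, 2 ≤ (r : ℕ) → 2 ≤ (r' : ℕ) → (r : ℕ) ≠ r' → ¬ P44.K.Adj r r' →
        Cond P44 r r' → ((r : ℕ) = 3 ∧ (r' : ℕ) = 5) ∨ ((r : ℕ) = 5 ∧ (r' : ℕ) = 3) := by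
      decide +kernel
    have h6 := hdec ⟨r, hr.2⟩ ⟨r', hr'.2⟩ hr.1 hr'.1 hne hK hcond'
    simp only at h6
    rcases h6 with ⟨rfl, rfl⟩ | ⟨rfl, rfl⟩
    · exact fu.2.2.2.2.2.1
    · exact fun h => fu.2.2.2.2.2.1 h.symm
  · intro r r' hr hr' hne _ hb'
    exfalso
    have hdec : ∀ r r' : Fin 6, 2 ≤ (r : ℕ) → 2 ≤ (r' : ℕ) → (r : ℕ) ≠ r' →
        ¬ P44.block r = P44.block r' := by
      decide +kernel
    exact hdec ⟨r, hr.2⟩ ⟨r', hr'.2⟩ hr.1 hr'.1 hne hb'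

/-- NO45 -/
theorem no45 (hS : SoundStatement) (hL : LinkApi) (hW : WFStatement) (hD : P45.Dominated) :
    No45Statement := by
  intro V G hG u v huv hu hv
  have hwf : P45.WF := hW P45 [[2], [3], [0, 4], [5], [6], [1]] (by decide +kernel)
  obtain ⟨a, b, x, hlu, hc⟩ := start hL hG huv hu
  have fu := four hlu
  have ha := (hc a).2 (Or.inl rfl)
  have hb := (hc b).2 (Or.inr rfl)
  obtain ⟨m, hm⟩ := hG.link v
  obtain ⟨m', hm', hlen⟩ := hL.first V G v u b m hm huv.symm hb.2.symm hb.1.symm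
  have h4 := hL.dg V G v m hm
  rw [hv] at h4
  obtain ⟨y, z, a', rfl⟩ := list_of_length5 (hlen.trans h4.symm)
  have fv := five hm'
  have hnd := hm'.nodup
  simp only [List.nodup_cons, List.mem_cons, List.not_mem_nil, or_false, not_or,
    not_false_eq_true, List.nodup_nil, and_true] at hnd
  have ha' : a' = a := by
    rcases (hc a').1 ⟨fv.2.2.2.2.1, fv.2.2.2.2.2.2.2.2.2.2.2.symm⟩ with h | h
    · exact h
    · exact absurd h.symm hnd.2.1.2.2
  subst ha'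
  -- the placement
  set ψ : ℕ → V := fun n => [u, v, y, z, a', x, b].getD n u with hψ
  refine hS V G hG P45 ψ hwf hD ⟨?_, ?_, ?_, ?_⟩
  · intro w hw
    have : w = 0 ∨ w = 1 := by
      have : w < 2 := hw
      omega
    rcases this with rfl | rfl
    · exact hlu
    · have := hL.rotate V G v _ 1 hm'
      exact this
  · obtain ⟨u1, u2, u3, u4, u5, u6, u7, u8, u9, u10, u11, u12, u13, u14, u15, u16⟩ := fu
    obtain ⟨v1, v2, v3, v4, v5, v6, v7, v8, v9, v10, v11, v12⟩ := fv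
    have hxy : x ≠ y := by
      rintro rfl
      exact u5 v10
    have hxz : x ≠ z := by
      rintro rfl
      exact u5 v11
    have huv' := huv.ne
    have key : [u, v, y, z, a', x, b].Nodup := by
      simp only [List.nodup_cons, List.mem_cons, List.not_mem_nil, or_false, not_or,
        not_false_eq_true, List.nodup_nil, and_true]
      exact ⟨⟨huv', hnd.1.2.1, hnd.1.2.2.1, u14.ne, u15.ne, u16.ne⟩,
        ⟨v10.ne, v11.ne, u7, u8, u9⟩,
        ⟨hnd.2.2.1.1, hnd.2.2.1.2, hxy.symm, fun h => hnd.2.1.1 h.symm⟩,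
        ⟨hnd.2.2.2, hxz.symm, fun h => hnd.2.1.2.1 h.symm⟩, ⟨u10, u11⟩, u12⟩
    intro i j hi hj hij
    have hi' : i < [u, v, y, z, a', x, b].length := hi
    have hj' : j < [u, v, y, z, a', x, b].length := hj
    simp only [hψ, List.getD_eq_getElem _ _ hi', List.getD_eq_getElem _ _ hj'] at hij
    exact (key.getElem_inj_iff).1 hij
  · intro r r' hr hr' hne hK hcond
    have hcond' := cond_of hwf hcond
    have hdec : ∀ r r' : Fin 7, 2 ≤ (r : ℕ) → 2 ≤ (r' : ℕ) → (r : ℕ) ≠ r' → ¬ P45.K.Adj r r' →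
        Cond P45 r r' → ((r : ℕ) = 4 ∧ (r' : ℕ) = 6) ∨ ((r : ℕ) = 6 ∧ (r' : ℕ) = 4) := by
      decide +kernel
    have h6 := hdec ⟨r, hr.2⟩ ⟨r', hr'.2⟩ hr.1 hr'.1 hne hK hcond'
    simp only at h6
    rcases h6 with ⟨rfl, rfl⟩ | ⟨rfl, rfl⟩
    · exact fu.2.2.2.2.2.1
    · exact fun h => fu.2.2.2.2.2.1 h.symm
  · intro r r' hr hr' hne _ hb'
    exfalso
    have hdec : ∀ r r' : Fin 7, 2 ≤ (r : ℕ) → 2 ≤ (r' : ℕ) → (r : ℕ) ≠ r' →
        ¬ P45.block r = P45.block r' := by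
      decide +kernel
    exact hdec ⟨r, hr.2⟩ ⟨r', hr'.2⟩ hr.1 hr'.1 hne hb'

end StrongArb.H39
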